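import Mathlib
import Pool.Agent.H83.LS.Targets4
import Pool.Agent.H58.LS.KBV

/-!
Local smoothing for all data, module KERN: kernels whose symbol depends on `ξ'/|ξ'|`.
-/

set_option autoImplicit false

namespace Pool.Agent.H20.LS

open MeasureTheory Set Metric
open scoped ENNReal NNReal
open Pool.Agent.H83.LS Pool.Agent.H58.LS

/-! ### Families with an oscillating factor -/

/-- derivative of the oscillating family -/
theorem osc_fd {d n m : ℕ} {O : Set (Fin m → ℝ)} {R : ℝ} {Ψ : (Fin m → ℝ) × EE d → ℂ}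
    {Θ : (Fin m → ℝ) × EE d → EE n} (hO : IsOpen O) (h : Cls O R Ψ)
    (hΘ : ContDiffOn ℝ (⊤ : ℕ∞) Θ (O ×ˢ univ)) {p : Fin m → ℝ} (hp : p ∈ O) (a : EE n) (ξ v : EE d) :
    fderiv ℝ (fun ξ : EE d => e (inner ℝ a (Θ (p, ξ))) * Ψ (p, ξ)) ξ v =
      e (inner ℝ a (Θ (p, ξ))) * fderiv ℝ Ψ (p, ξ) (0, v) +
      ∑ i : Fin n, ((a i : ℝ) : ℂ) * (e (inner ℝ a (Θ (p, ξ))) *
        ((((2 * Real.pi * (fderiv ℝ Θ (p, ξ) (0, v)) i : ℝ) : ℂ) * Complex.I) * Ψ (p, ξ))) := by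
  have hU : IsOpen (O ×ˢ (univ : Set (EE d))) := hO.prod isOpen_univ
  have hΘd : DifferentiableAt ℝ Θ (p, ξ) :=
    (hΘ.contDiffAt (hU.mem_nhds ⟨hp, mem_univ ξ⟩)).differentiableAt (by simp)
  have hΨd : DifferentiableAt ℝ Ψ (p, ξ) :=
    (h.1.contDiffAt (hU.mem_nhds ⟨hp, mem_univ ξ⟩)).differentiableAt (by simp)
  have hi : HasFDerivAt (fun ξ : EE d => (p, ξ)) (ContinuousLinearMap.inr ℝ (Fin m → ℝ) (EE d)) ξ :=
    hasFDerivAt_prodMk_right p ξ
  have h1 : HasFDerivAt (fun ξ : EE d => Θ (p, ξ)) _ ξ := hΘd.hasFDerivAt.comp ξ hi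
  have h2 : HasFDerivAt (fun ξ : EE d => Ψ (p, ξ)) _ ξ := hΨd.hasFDerivAt.comp ξ hi
  have h3 : HasFDerivAt (fun y : EE n => e (inner ℝ a y)) (fderiv ℝ (fun y : EE n => e (inner ℝ a y)) (Θ (p, ξ)))
      (Θ (p, ξ)) := by
    refine DifferentiableAt.hasFDerivAt ?_
    have : ContDiff ℝ (⊤ : ℕ∞) (fun y : EE n => e (inner ℝ a y)) := contDiff_e.comp (innerSL ℝ a).contDiff
    exact this.differentiable (by simp) _
  have h4 : HasFDerivAt (fun ξ : EE d => e (inner ℝ a (Θ (p, ξ)))) _ ξ :=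
    HasFDerivAt.comp (g := fun y : EE n => e (inner ℝ a y)) ξ h3 h1
  have h5 := h4.mul h2
  have h7 : fderiv ℝ (fun ξ : EE d => e (inner ℝ a (Θ (p, ξ))) * Ψ (p, ξ)) ξ = _ := h5.fderiv
  rw [h7]
  simp only [_root_.add_apply, _root_.smul_apply, ContinuousLinearMap.comp_apply,
    ContinuousLinearMap.inr_apply, smul_eq_mul]
  rw [ch_fd]
  congr 1
  have h6 : (inner ℝ a ((fderiv ℝ Θ (p, ξ)) (0, v)) : ℝ) = ∑ i : Fin n, a i * (fderiv ℝ Θ (p, ξ) (0, v)) i := by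
    rw [PiLp.inner_apply]
    exact Finset.sum_congr rfl fun i _ => by simp [mul_comm]
  rw [h6]
  push_cast
  rw [Finset.mul_sum, Finset.sum_mul, Finset.sum_mul, Finset.mul_sum]
  refine Finset.sum_congr rfl fun i _ => ?_
  ring

/-- the family `2πi (∂_v Θ)_i Ψ` -/
theorem cls_P {d n m : ℕ} {O : Set (Fin m → ℝ)} {R : ℝ} {Ψ : (Fin m → ℝ) × EE d → ℂ}
    {Θ : (Fin m → ℝ) × EE d → EE n} (hO : IsOpen O) (h : Cls O R Ψ)
    (hΘ : ContDiffOn ℝ (⊤ : ℕ∞) Θ (O ×ˢ univ)) (v : EE d) (i : Fin n) :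
    Cls O R (fun q => (((2 * Real.pi * (fderiv ℝ Θ q (0, v)) i : ℝ) : ℂ) * Complex.I) * Ψ q) := by
  have hU : IsOpen (O ×ˢ (univ : Set (EE d))) := hO.prod isOpen_univ
  constructor
  · have h1 : ContDiffOn ℝ (⊤ : ℕ∞) (fun q => fderiv ℝ Θ q (0, v)) (O ×ˢ univ) :=
      (hΘ.fderiv_of_isOpen hU (by simp)).clm_apply contDiffOn_const
    have h2 : ContDiffOn ℝ (⊤ : ℕ∞) (fun q => (fderiv ℝ Θ q (0, v)) i) (O ×ˢ univ) :=
      (EuclideanSpace.proj (𝕜 := ℝ) i).contDiff.comp_contDiffOn h1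
    have h3 : ContDiffOn ℝ (⊤ : ℕ∞) (fun q => (((2 * Real.pi * (fderiv ℝ Θ q (0, v)) i : ℝ) : ℂ))) (O ×ˢ univ) :=
      Complex.ofRealCLM.contDiff.comp_contDiffOn (contDiffOn_const.mul h2)
    exact (h3.mul contDiffOn_const).mul h.1
  · intro p hp ξ hξ
    simp only
    rw [h.2 p hp ξ hξ, mul_zero]

/-- smoothness of the slices of the oscillating family -/
theorem osc_slice {d n m : ℕ} {O : Set (Fin m → ℝ)} {R : ℝ} {Ψ : (Fin m → ℝ) × EE d → ℂ}
    {Θ : (Fin m → ℝ) × EE d → EE n} (h : Cls O R Ψ)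
    (hΘ : ContDiffOn ℝ (⊤ : ℕ∞) Θ (O ×ˢ univ)) {p : Fin m → ℝ} (hp : p ∈ O) (a : EE n) :
    ContDiff ℝ (⊤ : ℕ∞) (fun ξ : EE d => e (inner ℝ a (Θ (p, ξ))) * Ψ (p, ξ)) := by
  have h1 : ContDiff ℝ (⊤ : ℕ∞) (fun ξ : EE d => Θ (p, ξ)) :=
    hΘ.comp_contDiff (contDiff_const.prodMk contDiff_id) fun _ => ⟨hp, mem_univ _⟩
  exact (contDiff_e.comp ((innerSL ℝ a).contDiff.comp h1)).mul (slice h hp)

theorem osc_bound0 {d n m : ℕ} {K O : Set (Fin m → ℝ)} {R : ℝ} {Ψ : (Fin m → ℝ) × EE d → ℂ}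
    {Θ : (Fin m → ℝ) × EE d → EE n} (hK : IsCompact K)
    (hKO : K ⊆ O) (h : Cls O R Ψ) :
    ∃ C : ℝ, 0 ≤ C ∧ ∀ p ∈ K, ∀ (a : EE n) (x : EE d),
      ‖MK (fun ξ => e (inner ℝ a (Θ (p, ξ))) * Ψ (p, ξ)) x‖ ≤ C := by
  have hcpt : IsCompact (K ×ˢ closedBall (0 : EE d) R) := hK.prod (isCompact_closedBall 0 R)
  have hcont : ContinuousOn Ψ (K ×ˢ closedBall (0 : EE d) R) :=
    h.1.continuousOn.mono (prod_mono hKO (subset_univ _))
  obtain ⟨A, hA⟩ := hcpt.exists_bound_of_continuousOn hcont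
  refine ⟨|A| * (volume : Measure (EE d)).real (closedBall (0 : EE d) R), by positivity, fun p hp a x => ?_⟩
  have hpt : ∀ ξ : EE d, ‖e (inner ℝ x ξ) * (e (inner ℝ a (Θ (p, ξ))) * Ψ (p, ξ))‖ ≤
      (closedBall (0 : EE d) R).indicator (fun _ => |A|) ξ := by
    intro ξ
    rw [norm_mul, norm_mul, norm_e, norm_e, one_mul, one_mul]
    by_cases hξ : ξ ∈ closedBall (0 : EE d) R
    · rw [indicator_of_mem hξ]
      exact (hA (p, ξ) ⟨hp, hξ⟩).trans (le_abs_self A)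
    · rw [indicator_of_notMem hξ]
      have : R < ‖ξ‖ := by
        by_contra hcon
        push Not at hcon
        exact hξ (by simpa using hcon)
      rw [h.2 p (hKO hp) ξ this, norm_zero]
  unfold MK
  have hint : Integrable ((closedBall (0 : EE d) R).indicator (fun _ => |A|)) := by
    rw [integrable_indicator_iff isClosed_closedBall.measurableSet]
    refine integrableOn_const ?_ ?_
    · exact (isCompact_closedBall (0 : EE d) R).measure_lt_top.ne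
    · simp
  refine (norm_integral_le_of_norm_le hint (Filter.Eventually.of_forall hpt)).trans (le_of_eq ?_)
  rw [integral_indicator isClosed_closedBall.measurableSet, setIntegral_const, smul_eq_mul, mul_comm]

theorem osc_boundN {d n m : ℕ} {K O : Set (Fin m → ℝ)} {R : ℝ} {Θ : (Fin m → ℝ) × EE d → EE n}
    (hK : IsCompact K) (hO : IsOpen O) (hKO : K ⊆ O) (hΘ : ContDiffOn ℝ (⊤ : ℕ∞) Θ (O ×ˢ univ))
    (v : EE d) (N : ℕ) : ∀ Ψ : (Fin m → ℝ) × EE d → ℂ, Cls O R Ψ →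
    ∃ C : ℝ, 0 ≤ C ∧ ∀ p ∈ K, ∀ (a : EE n) (x : EE d),
      |inner ℝ x v| ^ N * ‖MK (fun ξ => e (inner ℝ a (Θ (p, ξ))) * Ψ (p, ξ)) x‖ ≤ C * (1 + ‖a‖) ^ N := by
  induction N with
  | zero =>
    intro Ψ h
    obtain ⟨C, hC0, hC⟩ := osc_bound0 (Θ := Θ) hK hKO h
    refine ⟨C, hC0, fun p hp a x => ?_⟩
    rw [pow_zero, one_mul, pow_zero, mul_one]
    exact hC p hp a x
  | succ N ih =>
    intro Ψ h
    obtain ⟨C, hC0, hC⟩ := ih _ (cls_D hO h v)
    have hi := fun i : Fin n => ih _ (cls_P hO h hΘ v i)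
    choose D hD0 hD using hi
    refine ⟨C + ∑ i, D i, add_nonneg hC0 (Finset.sum_nonneg fun i _ => hD0 i), fun p hp a x => ?_⟩
    have h1 := hC p hp a x
    have hpO := hKO hp
    have hR : ∀ ξ, R < ‖ξ‖ → e (inner ℝ a (Θ (p, ξ))) * Ψ (p, ξ) = 0 := fun ξ hξ => by
      rw [h.2 p hpO ξ hξ, mul_zero]
    have h2 := ibp (osc_slice h hΘ hpO a) hR x v
    have i1 : Integrable (fun ξ : EE d => e (inner ℝ x ξ) * (e (inner ℝ a (Θ (p, ξ))) * fderiv ℝ Ψ (p, ξ) (0, v))) := by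
      have hh := osc_slice (cls_D hO h v) hΘ hpO a
      have he : Continuous (fun ξ : EE d => e (inner ℝ x ξ)) := continuous_e.comp (innerSL ℝ x).continuous
      refine (he.mul hh.continuous).integrable_of_hasCompactSupport ?_
      refine HasCompactSupport.mul_left (hcs (R := R) fun ξ hξ => ?_)
      have := (cls_D hO h v).2 p hpO ξ hξ
      simp only at this
      rw [this, mul_zero]
    have i2 : ∀ i : Fin n, Integrable (fun ξ : EE d => e (inner ℝ x ξ) * (((a i : ℝ) : ℂ) * (e (inner ℝ a (Θ (p, ξ))) *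
        ((((2 * Real.pi * (fderiv ℝ Θ (p, ξ) (0, v)) i : ℝ) : ℂ) * Complex.I) * Ψ (p, ξ))))) := by
      intro i
      have hh := osc_slice (cls_P hO h hΘ v i) hΘ hpO a
      have he : Continuous (fun ξ : EE d => e (inner ℝ x ξ)) := continuous_e.comp (innerSL ℝ x).continuous
      refine (he.mul (continuous_const.mul hh.continuous)).integrable_of_hasCompactSupport ?_
      refine HasCompactSupport.mul_left (HasCompactSupport.mul_left (hcs (R := R) fun ξ hξ => ?_))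
      have := (cls_P hO h hΘ v i).2 p hpO ξ hξ
      simp only at this
      rw [this, mul_zero]
    have h3 : MK (fun ξ : EE d => fderiv ℝ (fun ξ : EE d => e (inner ℝ a (Θ (p, ξ))) * Ψ (p, ξ)) ξ v) x =
        MK (fun ξ => e (inner ℝ a (Θ (p, ξ))) * fderiv ℝ Ψ (p, ξ) (0, v)) x +
        ∑ i : Fin n, ((a i : ℝ) : ℂ) * MK (fun ξ => e (inner ℝ a (Θ (p, ξ))) *
          ((((2 * Real.pi * (fderiv ℝ Θ (p, ξ) (0, v)) i : ℝ) : ℂ) * Complex.I) * Ψ (p, ξ))) x := by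
      unfold MK
      simp only [osc_fd hO h hΘ hpO, mul_add, Finset.mul_sum]
      rw [integral_add i1 (integrable_finsetSum _ fun i _ => i2 i), integral_finsetSum _ fun i _ => i2 i]
      congr 1
      refine Finset.sum_congr rfl fun i _ => ?_
      rw [← integral_const_mul]
      refine integral_congr_ae (Filter.Eventually.of_forall fun ξ => ?_)
      simp only
      ring
    rw [h3] at h2
    set Z : ℝ := ‖MK (fun ξ => e (inner ℝ a (Θ (p, ξ))) * Ψ (p, ξ)) x‖ with hZ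
    have h4 : 2 * Real.pi * |inner ℝ x v| * Z = ‖MK (fun ξ => e (inner ℝ a (Θ (p, ξ))) * fderiv ℝ Ψ (p, ξ) (0, v)) x +
        ∑ i : Fin n, ((a i : ℝ) : ℂ) * MK (fun ξ => e (inner ℝ a (Θ (p, ξ))) *
          ((((2 * Real.pi * (fderiv ℝ Θ (p, ξ) (0, v)) i : ℝ) : ℂ) * Complex.I) * Ψ (p, ξ))) x‖ := by
      rw [h2, norm_mul, norm_neg, norm_mul, Complex.norm_I, mul_one, Complex.norm_real, Real.norm_eq_abs, abs_mul,
        abs_of_pos (by positivity : (0 : ℝ) < 2 * Real.pi)]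
    have hpi := Real.pi_gt_three
    have hZ0 : 0 ≤ |inner ℝ x v| * Z := by positivity
    have h5 : |inner ℝ x v| * Z ≤ ‖MK (fun ξ => e (inner ℝ a (Θ (p, ξ))) * fderiv ℝ Ψ (p, ξ) (0, v)) x‖ +
        ∑ i : Fin n, |a i| * ‖MK (fun ξ => e (inner ℝ a (Θ (p, ξ))) *
          ((((2 * Real.pi * (fderiv ℝ Θ (p, ξ) (0, v)) i : ℝ) : ℂ) * Complex.I) * Ψ (p, ξ))) x‖ := by
      calc |inner ℝ x v| * Z ≤ 2 * Real.pi * |inner ℝ x v| * Z := by nlinarith
        _ ≤ _ := by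
          rw [h4]
          refine (norm_add_le _ _).trans (add_le_add_right ((norm_sum_le _ _).trans (Finset.sum_le_sum fun i _ => ?_)) _)
          rw [norm_mul, Complex.norm_real, Real.norm_eq_abs]
    have ha : ∀ i : Fin n, |a i| ≤ 1 + ‖a‖ := fun i => by
      have := PiLp.norm_apply_le a i
      rw [Real.norm_eq_abs] at this
      linarith
    have ha1 : (1 : ℝ) ≤ 1 + ‖a‖ := by linarith [norm_nonneg a]
    have hX : 0 ≤ |inner ℝ x v| ^ N := by positivity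
    calc |inner ℝ x v| ^ (N + 1) * Z = |inner ℝ x v| ^ N * (|inner ℝ x v| * Z) := by ring
      _ ≤ |inner ℝ x v| ^ N * (‖MK (fun ξ => e (inner ℝ a (Θ (p, ξ))) * fderiv ℝ Ψ (p, ξ) (0, v)) x‖ +
        ∑ i : Fin n, |a i| * ‖MK (fun ξ => e (inner ℝ a (Θ (p, ξ))) *
          ((((2 * Real.pi * (fderiv ℝ Θ (p, ξ) (0, v)) i : ℝ) : ℂ) * Complex.I) * Ψ (p, ξ))) x‖) :=
          mul_le_mul_of_nonneg_left h5 hX
      _ = |inner ℝ x v| ^ N * ‖MK (fun ξ => e (inner ℝ a (Θ (p, ξ))) * fderiv ℝ Ψ (p, ξ) (0, v)) x‖ +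
        ∑ i : Fin n, |a i| * (|inner ℝ x v| ^ N * ‖MK (fun ξ => e (inner ℝ a (Θ (p, ξ))) *
          ((((2 * Real.pi * (fderiv ℝ Θ (p, ξ) (0, v)) i : ℝ) : ℂ) * Complex.I) * Ψ (p, ξ))) x‖) := by
          rw [mul_add, Finset.mul_sum]
          congr 1
          exact Finset.sum_congr rfl fun i _ => by ring
      _ ≤ C * (1 + ‖a‖) ^ N + ∑ i : Fin n, (1 + ‖a‖) * (D i * (1 + ‖a‖) ^ N) := by
          refine add_le_add h1 (Finset.sum_le_sum fun i _ => ?_)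
          exact mul_le_mul (ha i) (hD i p hp a x) (by positivity) (by positivity)
      _ ≤ C * (1 + ‖a‖) ^ (N + 1) + ∑ i : Fin n, (1 + ‖a‖) * (D i * (1 + ‖a‖) ^ N) := by
          refine add_le_add_left ?_ _
          exact mul_le_mul_of_nonneg_left (pow_le_pow_right₀ ha1 (Nat.le_succ N)) hC0
      _ = (C + ∑ i, D i) * (1 + ‖a‖) ^ (N + 1) := by
          rw [add_mul, Finset.sum_mul]
          congr 1
          exact Finset.sum_congr rfl fun i _ => by ring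

/-- decay of the oscillating families, uniform in the parameters, polynomial in `a` -/
theorem osc_kbv {d n m : ℕ} {K O : Set (Fin m → ℝ)} {R : ℝ} {Θ : (Fin m → ℝ) × EE d → EE n}
    {Ψ : (Fin m → ℝ) × EE d → ℂ}
    (hK : IsCompact K) (hO : IsOpen O) (hKO : K ⊆ O) (hΘ : ContDiffOn ℝ (⊤ : ℕ∞) Θ (O ×ˢ univ))
    (h : Cls O R Ψ) (N : ℕ) :
    ∃ C : ℝ, 0 ≤ C ∧ ∀ p ∈ K, ∀ (a : EE n) (x : EE d),
      ‖MK (fun ξ => e (inner ℝ a (Θ (p, ξ))) * Ψ (p, ξ)) x‖ * (1 + ‖x‖) ^ N ≤ C * (1 + ‖a‖) ^ N := by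
  obtain ⟨C0, hC00, hC0⟩ := osc_bound0 (Θ := Θ) hK hKO h
  have hb := fun i : Fin d => osc_boundN hK hO hKO hΘ (EuclideanSpace.single i (1 : ℝ)) N Ψ h
  choose C hCnn hC using hb
  have hsum : 0 ≤ ∑ i, C i := Finset.sum_nonneg fun i _ => hCnn i
  refine ⟨(1 + d) ^ N * (C0 + ∑ i, C i), by positivity, fun p hp a x => ?_⟩
  set Z : ℝ := ‖MK (fun ξ => e (inner ℝ a (Θ (p, ξ))) * Ψ (p, ξ)) x‖ with hZ
  have hZ0 : 0 ≤ Z := norm_nonneg _
  have hZC : Z ≤ C0 := hC0 p hp a x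
  have hd0 : (0 : ℝ) ≤ d := Nat.cast_nonneg d
  have h1d : (1 : ℝ) ≤ (1 + d) ^ N := one_le_pow₀ (by linarith)
  have ha1 : (1 : ℝ) ≤ (1 + ‖a‖) ^ N := one_le_pow₀ (by linarith [norm_nonneg a])
  rcases coord_max x with h0 | ⟨i, hi⟩
  · rw [h0, add_zero, one_pow, mul_one]
    have h7 : 0 ≤ (1 + (d : ℝ)) ^ N * (C0 + ∑ i, C i) := by positivity
    calc Z ≤ C0 + ∑ i, C i := by linarith
      _ = 1 * (C0 + ∑ i, C i) := (one_mul _).symm
      _ ≤ (1 + d) ^ N * (C0 + ∑ i, C i) := mul_le_mul_of_nonneg_right h1d (by linarith)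
      _ = (1 + d) ^ N * (C0 + ∑ i, C i) * 1 := (mul_one _).symm
      _ ≤ _ := mul_le_mul_of_nonneg_left ha1 h7
  · have h2 := hC i p hp a x
    have h3 : (inner ℝ x (EuclideanSpace.single i (1 : ℝ)) : ℝ) = x i := by
      simp [EuclideanSpace.inner_single_right]
    rw [h3] at h2
    have h4 : (1 + ‖x‖) ^ N ≤ (1 + d) ^ N * (1 + |x i| ^ N) := by
      have h5 : (1 + ‖x‖) ≤ (1 + d) * max 1 |x i| := by
        have a1 : (1 : ℝ) ≤ max 1 |x i| := le_max_left _ _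
        have a2 : |x i| ≤ max 1 |x i| := le_max_right _ _
        have a3 : (d : ℝ) * |x i| ≤ d * max 1 |x i| := mul_le_mul_of_nonneg_left a2 hd0
        linarith
      calc (1 + ‖x‖) ^ N ≤ ((1 + d) * max 1 |x i|) ^ N := pow_le_pow_left₀ (by positivity) h5 N
        _ = (1 + d) ^ N * (max 1 |x i|) ^ N := mul_pow _ _ _
        _ ≤ (1 + d) ^ N * (1 + |x i| ^ N) := by
          refine mul_le_mul_of_nonneg_left ?_ (by positivity)
          rcases le_total 1 |x i| with hx | hx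
          · rw [max_eq_right hx]
            linarith
          · rw [max_eq_left hx, one_pow]
            have : 0 ≤ |x i| ^ N := by positivity
            linarith
    have h6 : C i ≤ ∑ i, C i := Finset.single_le_sum (fun j _ => hCnn j) (Finset.mem_univ i)
    calc Z * (1 + ‖x‖) ^ N ≤ Z * ((1 + d) ^ N * (1 + |x i| ^ N)) := mul_le_mul_of_nonneg_left h4 hZ0
      _ = (1 + d) ^ N * (Z + |x i| ^ N * Z) := by ring
      _ ≤ (1 + d) ^ N * (C0 * (1 + ‖a‖) ^ N + (∑ i, C i) * (1 + ‖a‖) ^ N) := by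
        refine mul_le_mul_of_nonneg_left (add_le_add ?_ ?_) (by positivity)
        · calc Z ≤ C0 * 1 := by linarith
            _ ≤ _ := mul_le_mul_of_nonneg_left ha1 hC00
        · exact h2.trans (mul_le_mul_of_nonneg_right h6 (by positivity))
      _ = _ := by ring

/-! ### Dilations -/

/-- diagonal dilations -/
noncomputable def dil {d : ℕ} (c : Fin d → ℝ) : EE d →ₗ[ℝ] EE d where
  toFun x := WithLp.toLp 2 (fun i => c i * x i)
  map_add' x y := by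
    ext i
    simp [mul_add]
  map_smul' r x := by
    ext i
    simp
    ring

theorem dil_apply {d : ℕ} (c : Fin d → ℝ) (x : EE d) (i : Fin d) : dil c x i = c i * x i := rfl

theorem det_dil_ne {d : ℕ} (c : Fin d → ℝ) (hc : ∀ i, c i ≠ 0) : LinearMap.det (dil c) ≠ 0 := by
  have h1 : dil c ∘ₗ dil (fun i => (c i)⁻¹) = LinearMap.id := by
    ext x i
    simp only [LinearMap.comp_apply, LinearMap.id_apply]
    rw [dil_apply, dil_apply]
    rw [mul_inv_cancel_left₀ (hc i)]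
  have h2 : LinearMap.det (dil c) * LinearMap.det (dil (fun i => (c i)⁻¹)) = 1 := by
    rw [← LinearMap.det_comp, h1, LinearMap.det_id]
  intro h0
  rw [h0, zero_mul] at h2
  exact zero_ne_one h2

theorem inner_dil {d : ℕ} (c : Fin d → ℝ) (x y : EE d) :
    (inner ℝ (dil c x) y : ℝ) = inner ℝ x (dil c y) := by
  rw [PiLp.inner_apply, PiLp.inner_apply]
  refine Finset.sum_congr rfl fun i _ => ?_
  simp only [dil_apply]
  simp
  ring

theorem emb_dil {d : ℕ} (c : Fin d → ℝ) (hc : ∀ i, c i ≠ 0) : MeasurableEmbedding (dil c) := by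
  have hinj : Function.Injective (dil c) := by
    intro x y hxy
    ext i
    have h1 : dil c x i = dil c y i := by rw [hxy]
    rw [dil_apply, dil_apply] at h1
    exact mul_left_cancel₀ (hc i) h1
  have hcont : Continuous (dil c) := LinearMap.continuous_of_finiteDimensional _
  exact hcont.measurableEmbedding hinj

/-- the `L¹` norm of the kernel is invariant under dilations of the symbol -/
theorem MK_dil {d : ℕ} (c : Fin d → ℝ) (hc : ∀ i, c i ≠ 0) (m : EE d → ℂ) :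
    ∫⁻ x, ‖MK m x‖ₑ = ∫⁻ x, ‖MK (fun ζ => m (dil c ζ)) x‖ₑ := by
  have hdet := det_dil_ne c hc
  have hmap := Measure.map_linearMap_addHaar_eq_smul_addHaar (volume : Measure (EE d)) hdet
  set D : ℝ := |(LinearMap.det (dil c))⁻¹| with hD
  have hD0 : 0 < D := by
    rw [hD]
    exact abs_pos.mpr (inv_ne_zero hdet)
  have h1 : ∀ x, MK (fun ζ => m (dil c ζ)) (dil c x) = (D : ℂ) * MK m x := by
    intro x
    unfold MK
    have h2 : (fun ζ : EE d => e (inner ℝ (dil c x) ζ) * m (dil c ζ)) =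
        fun ζ => (fun ξ : EE d => e (inner ℝ x ξ) * m ξ) (dil c ζ) := by
      funext ζ
      simp only
      rw [inner_dil]
    rw [h2, ← (emb_dil c hc).integral_map (fun ξ : EE d => e (inner ℝ x ξ) * m ξ), hmap,
      integral_smul_measure, ENNReal.toReal_ofReal hD0.le]
    rw [Complex.real_smul]
  have h3 : ∫⁻ x, ‖MK (fun ζ => m (dil c ζ)) (dil c x)‖ₑ = ENNReal.ofReal D *
      ∫⁻ x, ‖MK (fun ζ => m (dil c ζ)) x‖ₑ := by
    rw [← (emb_dil c hc).lintegral_map (fun x => ‖MK (fun ζ => m (dil c ζ)) x‖ₑ), hmap,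
      lintegral_smul_measure, smul_eq_mul]
  have h4 : ∫⁻ x, ‖MK (fun ζ => m (dil c ζ)) (dil c x)‖ₑ = ENNReal.ofReal D * ∫⁻ x, ‖MK m x‖ₑ := by
    have h5 : ∀ x, ‖MK (fun ζ => m (dil c ζ)) (dil c x)‖ₑ = ENNReal.ofReal D * ‖MK m x‖ₑ := by
      intro x
      rw [h1, enorm_mul]
      congr 1
      rw [← ofReal_norm, Complex.norm_real, Real.norm_eq_abs, abs_of_pos hD0]
    simp only [h5]
    rw [lintegral_const_mul' _ _ ENNReal.ofReal_ne_top]
  rw [h3] at h4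
  have hD' : ENNReal.ofReal D ≠ 0 := by
    rw [Ne, ENNReal.ofReal_eq_zero, not_le]
    exact hD0
  exact ((ENNReal.mul_right_inj hD' ENNReal.ofReal_ne_top).mp h4).symm

/-! ### The symbols -/

/-- `|ξ'|²` -/
noncomputable def hq {n : ℕ} (x : EE (n + 1)) : ℝ := ‖x‖ ^ 2 - (x (Fin.last n)) ^ 2

theorem hq_eq {n : ℕ} (x : EE (n + 1)) : hq x = ∑ i : Fin n, (x i.castSucc) ^ 2 := by
  unfold hq
  rw [EuclideanSpace.norm_sq_eq, Fin.sum_univ_castSucc]
  simp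

theorem hq_nonneg {n : ℕ} (x : EE (n + 1)) : 0 ≤ hq x := by
  rw [hq_eq]
  exact Finset.sum_nonneg fun i _ => sq_nonneg _

theorem hor_eq {n : ℕ} (x : EE (n + 1)) : hor x = Real.sqrt (hq x) := rfl

theorem contDiff_hq {n : ℕ} : ContDiff ℝ (⊤ : ℕ∞) (hq : EE (n + 1) → ℝ) := by
  have h1 : ContDiff ℝ (⊤ : ℕ∞) (fun x : EE (n + 1) => x (Fin.last n)) :=
    (EuclideanSpace.proj (𝕜 := ℝ) (Fin.last n)).contDiff
  exact (contDiff_norm_sq ℝ).sub (h1.pow 2)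

theorem contDiff_pr {n : ℕ} : ContDiff ℝ (⊤ : ℕ∞) (pr : EE (n + 1) → EE n) := by
  rw [contDiff_euclidean]
  intro i
  exact (EuclideanSpace.proj (𝕜 := ℝ) i.castSucc).contDiff

/-- functions supported in `[1/8,8]`, as functions of the square -/
theorem contDiff_sq {X : ℝ → ℂ} (hX : CB 0 1 X) : ContDiff ℝ (⊤ : ℕ∞) (fun s : ℝ => X (Real.sqrt s)) := by
  rw [contDiff_iff_contDiffAt]
  intro s
  rcases lt_or_ge 0 s with hs | hs
  · exact hX.1.contDiffAt.comp s (Real.contDiffAt_sqrt hs.ne')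
  · have hev : (fun s : ℝ => X (Real.sqrt s)) =ᶠ[nhds s] fun _ => (0 : ℂ) := by
      filter_upwards [Iio_mem_nhds (show s < 1 / 64 by linarith)] with t ht
      by_contra hne
      have h1 := (hX.2.1 _ hne).1
      have h2 : Real.sqrt t < 1 / 8 := by
        rw [show (1 / 8 : ℝ) = Real.sqrt (1 / 64) from by
          rw [show (1 / 64 : ℝ) = (1 / 8) ^ 2 by norm_num, Real.sqrt_sq (by norm_num)]]
        exact Real.sqrt_lt_sqrt_iff_of_pos (by norm_num) |>.mpr ht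
      linarith
    exact contDiffAt_const.congr_of_eventuallyEq hev

/-- smooth extension of `1/√s` from `s ≥ 1/64` -/
noncomputable def zz (s : ℝ) : ℝ := Real.smoothTransition (128 * s - 1) * (Real.sqrt s)⁻¹

theorem zz_eq {s : ℝ} (hs : 1 / 64 ≤ s) : zz s = (Real.sqrt s)⁻¹ := by
  unfold zz
  rw [Real.smoothTransition.one_of_one_le (by linarith), one_mul]

theorem contDiff_zz : ContDiff ℝ (⊤ : ℕ∞) zz := by
  rw [contDiff_iff_contDiffAt]
  intro s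
  rcases lt_or_ge 0 s with hs | hs
  · have h1 : ContDiffAt ℝ (⊤ : ℕ∞) (fun s : ℝ => Real.smoothTransition (128 * s - 1)) s :=
      (Real.smoothTransition.contDiff.comp ((contDiff_const.mul contDiff_id).sub contDiff_const)).contDiffAt
    exact h1.mul ((Real.contDiffAt_sqrt hs.ne').inv (Real.sqrt_pos.mpr hs).ne')
  · have hev : zz =ᶠ[nhds s] fun _ => (0 : ℝ) := by
      filter_upwards [Iio_mem_nhds (show s < 1 / 128 by linarith)] with t ht
      unfold zz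
      rw [Real.smoothTransition.zero_of_nonpos (by rw [mem_Iio] at ht; linarith), zero_mul]
    exact contDiffAt_const.congr_of_eventuallyEq hev

/-- the phase -/
noncomputable def Th {n : ℕ} (q : (Fin 2 → ℝ) × EE (n + 1)) : EE n := (q.1 0 * zz (hq q.2)) • pr q.2

/-- the amplitude -/
noncomputable def Ps {n : ℕ} (W : EE n → ℂ) (X₁ X₂ : ℝ → ℂ) (q : (Fin 2 → ℝ) × EE (n + 1)) : ℂ :=
  W (Th q) * X₁ (Real.sqrt (hq q.2)) * X₂ (Real.sqrt ((q.1 1) ^ 2 * hq q.2 + (q.2 (Fin.last n)) ^ 2))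

theorem contDiff_Th {n : ℕ} : ContDiff ℝ (⊤ : ℕ∞) (Th : (Fin 2 → ℝ) × EE (n + 1) → EE n) := by
  unfold Th
  have h0 : ContDiff ℝ (⊤ : ℕ∞) (fun q : (Fin 2 → ℝ) × EE (n + 1) => q.1 0) :=
    (contDiff_apply ℝ ℝ (0 : Fin 2)).comp contDiff_fst
  have h1 : ContDiff ℝ (⊤ : ℕ∞) (fun q : (Fin 2 → ℝ) × EE (n + 1) => zz (hq q.2)) :=
    contDiff_zz.comp (contDiff_hq.comp contDiff_snd)
  exact (h0.mul h1).smul (contDiff_pr.comp contDiff_snd)

theorem contDiff_Ps {n : ℕ} {W : EE n → ℂ} {X₁ X₂ : ℝ → ℂ} (hW : AN W) (h₁ : CB 0 1 X₁) (h₂ : CB 0 1 X₂) :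
    ContDiff ℝ (⊤ : ℕ∞) (Ps W X₁ X₂) := by
  unfold Ps
  have h0 : ContDiff ℝ (⊤ : ℕ∞) (fun q : (Fin 2 → ℝ) × EE (n + 1) => q.1 1) :=
    (contDiff_apply ℝ ℝ (1 : Fin 2)).comp contDiff_fst
  have h1 : ContDiff ℝ (⊤ : ℕ∞) (fun q : (Fin 2 → ℝ) × EE (n + 1) => hq q.2) := contDiff_hq.comp contDiff_snd
  have h3 : ContDiff ℝ (⊤ : ℕ∞) (fun q : (Fin 2 → ℝ) × EE (n + 1) => q.2 (Fin.last n)) :=
    (EuclideanSpace.proj (𝕜 := ℝ) (Fin.last n)).contDiff.comp contDiff_snd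
  exact ((hW.1.comp contDiff_Th).mul ((contDiff_sq h₁).comp h1)).mul
    ((contDiff_sq h₂).comp (((h0.pow 2).mul h1).add (h3.pow 2)))

theorem supp_Ps {n : ℕ} {W : EE n → ℂ} {X₁ X₂ : ℝ → ℂ} (h₁ : CB 0 1 X₁) (h₂ : CB 0 1 X₂)
    (p : Fin 2 → ℝ) (ξ : EE (n + 1)) (hξ : 12 < ‖ξ‖) : Ps W X₁ X₂ (p, ξ) = 0 := by
  by_contra hne
  unfold Ps at hne
  have a1 := (h₁.2.1 _ (right_ne_zero_of_mul (left_ne_zero_of_mul hne))).2
  have a2 := (h₂.2.1 _ (right_ne_zero_of_mul hne)).2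
  simp only at a1 a2
  have hq0 := hq_nonneg ξ
  have b1 : hq ξ ≤ 64 := by
    have := Real.sqrt_le_left (by norm_num) |>.mp a1
    linarith
  have b2 : (p 1) ^ 2 * hq ξ + (ξ (Fin.last n)) ^ 2 ≤ 64 := by
    have := Real.sqrt_le_left (by norm_num) |>.mp a2
    linarith
  have b3 : 0 ≤ (p 1) ^ 2 * hq ξ := by positivity
  have b4 : ‖ξ‖ ^ 2 = hq ξ + (ξ (Fin.last n)) ^ 2 := by unfold hq; ring
  nlinarith

/-- the coefficients of the dilation -/
noncomputable def cc (n : ℕ) (Lam lam : ℝ) (i : Fin (n + 1)) : ℝ := if i = Fin.last n then lam else Lam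

theorem cc_ne {n : ℕ} {Lam lam : ℝ} (h1 : 0 < Lam) (h2 : 0 < lam) (i : Fin (n + 1)) : cc n Lam lam i ≠ 0 := by
  unfold cc
  split_ifs
  · exact h2.ne'
  · exact h1.ne'

theorem dil_last {n : ℕ} (Lam lam : ℝ) (ζ : EE (n + 1)) : dil (cc n Lam lam) ζ (Fin.last n) = lam * ζ (Fin.last n) := by
  rw [dil_apply]
  unfold cc
  rw [if_pos rfl]

theorem dil_cast {n : ℕ} (Lam lam : ℝ) (ζ : EE (n + 1)) (i : Fin n) :
    dil (cc n Lam lam) ζ i.castSucc = Lam * ζ i.castSucc := by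
  rw [dil_apply]
  unfold cc
  rw [if_neg (Fin.castSucc_lt_last i).ne]

theorem hq_dil {n : ℕ} (Lam lam : ℝ) (ζ : EE (n + 1)) : hq (dil (cc n Lam lam) ζ) = Lam ^ 2 * hq ζ := by
  rw [hq_eq, hq_eq, Finset.mul_sum]
  refine Finset.sum_congr rfl fun i _ => ?_
  rw [dil_cast]
  ring

theorem pr_dil {n : ℕ} (Lam lam : ℝ) (ζ : EE (n + 1)) : pr (dil (cc n Lam lam) ζ) = Lam • pr ζ := by
  ext i
  show dil (cc n Lam lam) ζ i.castSucc = Lam * ζ i.castSucc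
  exact dil_cast Lam lam ζ i

theorem symb {n : ℕ} {W : EE n → ℂ} {X₁ X₂ : ℝ → ℂ} (h₁ : CB 0 1 X₁) (a : EE n) (r lam Lam : ℝ)
    (hL : 0 < Lam) (hl : 0 < lam) (ζ : EE (n + 1)) :
    (fun ξ : EE (n + 1) => e (inner ℝ a ((r / hor ξ) • pr ξ)) *
    W ((r / hor ξ) • pr ξ) * X₁ (hor ξ / Lam) * X₂ (‖ξ‖ / lam)) (dil (cc n Lam lam) ζ) =
      e (inner ℝ a (Th (![r, Lam / lam], ζ))) * Ps W X₁ X₂ (![r, Lam / lam], ζ) := by
  have hq0 := hq_nonneg ζ
  have e1 : hor (dil (cc n Lam lam) ζ) = Lam * Real.sqrt (hq ζ) := by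
    rw [hor_eq, hq_dil, Real.sqrt_mul (sq_nonneg _), Real.sqrt_sq hL.le]
  have e2 : hor (dil (cc n Lam lam) ζ) / Lam = Real.sqrt (hq ζ) := by
    rw [e1, mul_div_cancel_left₀ _ hL.ne']
  have e3 : ‖dil (cc n Lam lam) ζ‖ / lam = Real.sqrt ((Lam / lam) ^ 2 * hq ζ + (ζ (Fin.last n)) ^ 2) := by
    have h1 : ‖dil (cc n Lam lam) ζ‖ ^ 2 = Lam ^ 2 * hq ζ + (lam * ζ (Fin.last n)) ^ 2 := by
      rw [← hq_dil Lam lam, ← dil_last Lam lam ζ]
      unfold hq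
      ring
    rw [← Real.sqrt_sq (div_nonneg (norm_nonneg (dil (cc n Lam lam) ζ)) hl.le), div_pow, h1]
    congr 1
    field_simp
  simp only
  rw [e2, e3]
  unfold Ps
  simp only [Matrix.cons_val_zero, Matrix.cons_val_one]
  by_cases hX : X₁ (Real.sqrt (hq ζ)) = 0
  · rw [hX]
    ring
  · have h2 := (h₁.2.1 _ hX).1
    have h3 : 1 / 64 ≤ hq ζ := by
      have := Real.sq_sqrt hq0
      nlinarith
    have h4 : 0 < Real.sqrt (hq ζ) := lt_of_lt_of_le (by norm_num) h2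
    have e4 : (r / hor (dil (cc n Lam lam) ζ)) • pr (dil (cc n Lam lam) ζ) = Th (![r, Lam / lam], ζ) := by
      unfold Th
      simp only [Matrix.cons_val_zero]
      rw [e1, pr_dil, smul_smul, zz_eq h3]
      congr 1
      field_simp
    rw [e4]
    ring

theorem kern : T_KERN := by
  intro n hn W X₁ X₂ hW h₁ h₂
  have hK : IsCompact (Set.pi univ (fun i : Fin 2 => Icc (![1 / 8, 0] i : ℝ) (![8, 4] i))) :=
    isCompact_univ_pi fun i => isCompact_Icc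
  have hcls : Cls (univ : Set (Fin 2 → ℝ)) 12 (Ps W X₁ X₂) :=
    ⟨(contDiff_Ps hW h₁ h₂).contDiffOn, fun p _ ξ hξ => supp_Ps h₁ h₂ p ξ hξ⟩
  obtain ⟨C, hC0, hC⟩ := osc_kbv (Θ := Th) hK isOpen_univ (subset_univ _) contDiff_Th.contDiffOn hcls (n + 2)
  have hfin : ∫⁻ x : EE (n + 1), ENNReal.ofReal ((1 + ‖x‖) ^ (-((n : ℝ) + 2))) < ⊤ := by
    refine finite_integral_one_add_norm ?_
    rw [finrank_euclideanSpace_fin]
    push_cast
    linarith
  set I := ∫⁻ x : EE (n + 1), ENNReal.ofReal ((1 + ‖x‖) ^ (-((n : ℝ) + 2))) with hI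
  refine ⟨C.toNNReal * I.toNNReal, fun a r lam Lam hr1 hr8 hL hLl => ?_⟩
  have hl : 0 < lam := by linarith
  rw [MK_dil (cc n Lam lam) (cc_ne hL hl)]
  have hs : (fun ζ : EE (n + 1) => (fun ξ : EE (n + 1) => e (inner ℝ a ((r / hor ξ) • pr ξ)) *
    W ((r / hor ξ) • pr ξ) * X₁ (hor ξ / Lam) * X₂ (‖ξ‖ / lam)) (dil (cc n Lam lam) ζ)) =
      fun ζ => e (inner ℝ a (Th (![r, Lam / lam], ζ))) * Ps W X₁ X₂ (![r, Lam / lam], ζ) := by
    funext ζ
    exact symb h₁ a r lam Lam hL hl ζ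
  rw [hs]
  have hp : (![r, Lam / lam] : Fin 2 → ℝ) ∈ Set.pi univ (fun i : Fin 2 => Icc (![1 / 8, 0] i : ℝ) (![8, 4] i)) := by
    intro i _
    fin_cases i
    · exact ⟨hr1, hr8⟩
    · refine ⟨?_, ?_⟩
      · show (0 : ℝ) ≤ Lam / lam
        positivity
      · show Lam / lam ≤ 4
        rw [div_le_iff₀ hl]
        linarith
  have hpt : ∀ x : EE (n + 1), ‖MK (fun ζ => e (inner ℝ a (Th (![r, Lam / lam], ζ))) *
      Ps W X₁ X₂ (![r, Lam / lam], ζ)) x‖ₑ ≤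
      ENNReal.ofReal (C * (1 + ‖a‖) ^ (n + 2)) * ENNReal.ofReal ((1 + ‖x‖) ^ (-((n : ℝ) + 2))) := by
    intro x
    have h3 := hC _ hp a x
    have hx : 0 < 1 + ‖x‖ := by positivity
    rw [← ENNReal.ofReal_mul (by positivity), ← ofReal_norm]
    apply ENNReal.ofReal_le_ofReal
    rw [Real.rpow_neg hx.le, show ((n : ℝ) + 2) = ((n + 2 : ℕ) : ℝ) by push_cast; ring, Real.rpow_natCast,
      ← div_eq_mul_inv, le_div_iff₀ (by positivity)]
    exact h3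
  calc _ ≤ ∫⁻ x : EE (n + 1), ENNReal.ofReal (C * (1 + ‖a‖) ^ (n + 2)) *
        ENNReal.ofReal ((1 + ‖x‖) ^ (-((n : ℝ) + 2))) := lintegral_mono hpt
    _ = ENNReal.ofReal (C * (1 + ‖a‖) ^ (n + 2)) * I := by
      rw [lintegral_const_mul' _ _ ENNReal.ofReal_ne_top]
    _ = _ := by
      rw [ENNReal.ofReal_mul hC0, ENNReal.coe_mul, ENNReal.coe_toNNReal hfin.ne]
      rw [show ENNReal.ofReal C = (C.toNNReal : ℝ≥0∞) from rfl]
      ring

end Pool.Agent.H20.LS
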